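import Pool.Agent.H2.Irres.Reflect

set_option autoImplicit false

open Topology Set

namespace Pool.Agent.H2.Irres

namespace Seq

variable {X : Type*} [TopologicalSpace X] {s : X → X → X} {e : ℕ → X}

theorem C_sub_W (S : Seq X s e) (n : ℕ) : S.C n ⊆ S.W n := by
  by_cases h : S.rep n (e n) ∈ S.O n
  · exact (S.cell n h).2.2.2.2.2.2.1
  · rw [(S.nocell n h).2]
    exact empty_subset _

theorem W_sub_O (S : Seq X s e) (n : ℕ) : S.W n ⊆ S.O n := by
  by_cases h : S.rep n (e n) ∈ S.O n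
  · exact (S.cell n h).2.2.1
  · rw [(S.nocell n h).1]
    exact empty_subset _

theorem active_of_mem_W (S : Seq X s e) {n : ℕ} {u : X} (h : u ∈ S.W n) :
    S.rep n (e n) ∈ S.O n := by
  by_contra hn
  rw [(S.nocell n hn).1] at h
  exact h

theorem mem_W_of_flip (S : Seq X s e) (hs : Refl X s) {n : ℕ} {u : X}
    (h : s (S.rep n (e n)) u ∈ S.C n) : u ∈ S.W n := by
  have hW := S.C_sub_W n h
  have hact := S.active_of_mem_W hW
  have := (S.cell n hact).2.2.2.1 _ hW
  rwa [hs.invol] at this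

theorem O_succ_sub (S : Seq X s e) (n : ℕ) : S.O (n + 1) ⊆ S.O n := by
  rw [S.Osucc]
  exact union_subset sdiff_subset ((S.C_sub_W n).trans (S.W_sub_O n))

theorem O_anti (S : Seq X s e) {m n : ℕ} (h : m ≤ n) : S.O n ⊆ S.O m :=
  antitone_nat_of_succ_le (f := S.O) (fun k => S.O_succ_sub k) h

theorem not_flip (S : Seq X s e) (hs : Refl X s) {n : ℕ} {u : X} (h : u ∈ S.O (n + 1)) :
    s (S.rep n (e n)) u ∉ S.C n := by
  intro hf
  have hW := S.mem_W_of_flip hs hf
  have hact := S.active_of_mem_W hW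
  rw [S.Osucc] at h
  rcases h with h | h
  · exact h.2 hW
  · exact (S.cell n hact).2.2.2.2.2.2.2.1 u h hf

theorem rep_of_mem (S : Seq X s e) (hs : Refl X s) (n : ℕ) :
    ∀ u ∈ S.O n, S.rep n u = u ∧ S.par n u = false := by
  induction n with
  | zero => intro u _; exact ⟨S.rep0 u, S.par0 u⟩
  | succ n ih =>
    intro u hu
    obtain ⟨h1, h2⟩ := ih u (S.O_succ_sub n hu)
    have hnf := S.not_flip hs hu
    rw [← h1] at hnf
    rw [h1] at hnf
    constructor
    · rw [S.repS2 n u (by rw [h1]; exact hnf), h1]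
    · rw [S.parS2 n u (by rw [h1]; exact hnf), h2]

theorem done_succ (S : Seq X s e) (hs : Refl X s) {n : ℕ} {y : X} (h : S.rep n y ∉ S.O n) :
    S.rep (n + 1) y = S.rep n y ∧ S.par (n + 1) y = S.par n y := by
  have hnf : s (S.rep n (e n)) (S.rep n y) ∉ S.C n := by
    intro hf
    exact h (S.W_sub_O n (S.mem_W_of_flip hs hf))
  exact ⟨S.repS2 n y hnf, S.parS2 n y hnf⟩

theorem done_le (S : Seq X s e) (hs : Refl X s) {n : ℕ} {y : X} (h : S.rep n y ∉ S.O n) (k : ℕ) :
    S.rep (n + k) y = S.rep n y ∧ S.par (n + k) y = S.par n y ∧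
      S.rep (n + k) y ∉ S.O (n + k) := by
  induction k with
  | zero => exact ⟨rfl, rfl, h⟩
  | succ k ih =>
    obtain ⟨h1, h2, h3⟩ := ih
    obtain ⟨h4, h5⟩ := S.done_succ hs h3
    refine ⟨h4.trans h1, h5.trans h2, ?_⟩
    intro hmem
    have h6 := S.O_succ_sub _ hmem
    change S.rep (n + k + 1) y ∈ S.O (n + k) at h6
    rw [h4] at h6
    exact h3 h6

theorem done_index (S : Seq X s e) (hs : Refl X s) (n : ℕ) :
    S.rep (n + 1) (e n) ∉ S.O (n + 1) := by
  by_cases h : S.rep n (e n) ∈ S.O n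
  · obtain ⟨-, hxW, -, -, -, -, hCW, hC, -⟩ := S.cell n h
    have hself := hs.self (S.rep n (e n))
    have hxC : S.rep n (e n) ∉ S.C n := by
      intro hc
      have := hC _ hc
      rw [hself] at this
      exact this hc
    have hnf : s (S.rep n (e n)) (S.rep n (e n)) ∉ S.C n := by rwa [hself]
    rw [S.repS2 n _ hnf, S.Osucc]
    rintro (h1 | h1)
    · exact h1.2 hxW
    · exact hxC h1
  · intro hmem
    rw [(S.done_succ hs h).1] at hmem
    exact h (S.O_succ_sub n hmem)

open Classical in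
/-- the limit colouring -/
noncomputable def col (S : Seq X s e) (y : X) : Bool :=
  if h : ∃ n, S.rep n y ∉ S.O n then S.par (Nat.find h) y else false

theorem col_eq (S : Seq X s e) (hs : Refl X s) {m : ℕ} {y : X} (h : S.rep m y ∉ S.O m) :
    S.col y = S.par m y := by
  classical
  have hex : ∃ n, S.rep n y ∉ S.O n := ⟨m, h⟩
  rw [col, dif_pos hex]
  have hle : Nat.find hex ≤ m := Nat.find_min' hex h
  obtain ⟨k, hk⟩ := Nat.exists_eq_add_of_le hle
  have := (S.done_le hs (Nat.find_spec hex) k).2.1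
  rw [← hk] at this
  exact this.symm

theorem shift (S : Seq X s e) (hs : Refl X s) {n : ℕ} {y : X} (h : S.rep n y ∈ S.O n) (k : ℕ) :
    S.rep (n + k) y = S.rep (n + k) (S.rep n y) ∧
      S.par (n + k) y = xor (S.par n y) (S.par (n + k) (S.rep n y)) := by
  induction k with
  | zero =>
    obtain ⟨h1, h2⟩ := S.rep_of_mem hs n _ h
    refine ⟨h1.symm, ?_⟩
    simp only [add_zero]
    rw [h2]; simp
  | succ k ih =>
    obtain ⟨h1, h2⟩ := ih
    change S.rep (n + k + 1) y = S.rep (n + k + 1) (S.rep n y) ∧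
      S.par (n + k + 1) y = xor (S.par n y) (S.par (n + k + 1) (S.rep n y))
    by_cases hf : s (S.rep (n + k) (e (n + k))) (S.rep (n + k) y) ∈ S.C (n + k)
    · have hf' := hf
      rw [h1] at hf'
      rw [S.repS1 _ _ hf, S.repS1 _ _ hf', S.parS1 _ _ hf, S.parS1 _ _ hf', h1, h2]
      refine ⟨rfl, ?_⟩
      cases S.par n y <;> cases S.par (n + k) (S.rep n y) <;> rfl
    · have hf' := hf
      rw [h1] at hf'
      rw [S.repS2 _ _ hf, S.repS2 _ _ hf', S.parS2 _ _ hf, S.parS2 _ _ hf', h1, h2]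
      exact ⟨rfl, rfl⟩

theorem exists_done (S : Seq X s e) (hs : Refl X s) (he : Function.Surjective e) (y : X) :
    ∃ n, S.rep n y ∉ S.O n := by
  obtain ⟨n, rfl⟩ := he y
  exact ⟨n + 1, S.done_index hs n⟩

theorem col_shift (S : Seq X s e) (hs : Refl X s) (he : Function.Surjective e) {n : ℕ} {y : X}
    (h : S.rep n y ∈ S.O n) : S.col y = xor (S.par n y) (S.col (S.rep n y)) := by
  obtain ⟨a, ha⟩ := S.exists_done hs he y
  obtain ⟨b, hb⟩ := S.exists_done hs he (S.rep n y)
  have h1 := (S.done_le hs ha (n + b)).2.2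
  have h2 := (S.done_le hs hb (n + a)).2.2
  have e1 : a + (n + b) = n + (a + b) := by ring
  have e2 : b + (n + a) = n + (a + b) := by ring
  rw [e1] at h1
  rw [e2] at h2
  rw [S.col_eq hs h1, S.col_eq hs h2]
  exact (S.shift hs h (a + b)).2

theorem col_flip (S : Seq X s e) (hs : Refl X s) (he : Function.Surjective e) {n : ℕ} {u : X}
    (hu : u ∈ S.W n) (hne : s (S.rep n (e n)) u ≠ u) :
    S.col (s (S.rep n (e n)) u) = !(S.col u) := by
  have hact := S.active_of_mem_W hu
  obtain ⟨-, hxW, hWO, hWs, hloc, -, hCW, hC, hcov⟩ := S.cell n hact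
  -- first for `u ∈ C`
  have key : ∀ u ∈ S.C n, S.col (s (S.rep n (e n)) u) = !(S.col u) := by
    intro u huC
    set v := s (S.rep n (e n)) u with hv
    have hvW : v ∈ S.W n := hWs u (hCW huC)
    have hvO : v ∈ S.O n := hWO hvW
    obtain ⟨h1, h2⟩ := S.rep_of_mem hs n v hvO
    have hsv : s (S.rep n (e n)) v = u := by rw [hv, hs.invol]
    have hf : s (S.rep n (e n)) (S.rep n v) ∈ S.C n := by rw [h1, hsv]; exact huC
    have h3 : S.rep (n + 1) v = u := by rw [S.repS1 n v hf, h1, hsv]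
    have h4 : S.par (n + 1) v = true := by rw [S.parS1 n v hf, h2]; rfl
    have hmem : S.rep (n + 1) v ∈ S.O (n + 1) := by
      rw [h3, S.Osucc]
      exact Or.inr huC
    rw [S.col_shift hs he hmem, h3, h4]
    cases S.col u <;> rfl
  rcases hcov u hu hne with h | h
  · exact key u h
  · have := key _ h
    rw [hs.invol] at this
    rw [this]
    simp

theorem exists_first (S : Seq X s e) (hs : Refl X s) (he : Function.Surjective e) (z : X) :
    ∃ n, S.rep n z ∈ S.O n ∧ S.rep (n + 1) z ∉ S.O (n + 1) := by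
  classical
  have hex := S.exists_done hs he z
  have hspec := Nat.find_spec hex
  have hpos : Nat.find hex ≠ 0 := by
    intro h0
    rw [h0, S.O0] at hspec
    exact hspec (mem_univ _)
  obtain ⟨n, hn⟩ := Nat.exists_eq_succ_of_ne_zero hpos
  refine ⟨n, ?_, ?_⟩
  · have := Nat.find_min hex (m := n) (by omega)
    push Not at this
    exact this
  · rw [hn] at hspec
    exact hspec

theorem fix_of_first (S : Seq X s e) (_hs : Refl X s) {n : ℕ} {z : X} (h1 : S.rep n z ∈ S.O n)
    (h2 : S.rep (n + 1) z ∉ S.O (n + 1)) :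
    S.rep n z ∈ S.W n ∧ s (S.rep n (e n)) (S.rep n z) = S.rep n z := by
  by_cases hf : s (S.rep n (e n)) (S.rep n z) ∈ S.C n
  · exfalso
    apply h2
    rw [S.repS1 n z hf, S.Osucc]
    exact Or.inr hf
  · rw [S.repS2 n z hf, S.Osucc] at h2
    have hW : S.rep n z ∈ S.W n := by
      by_contra hW
      exact h2 (Or.inl ⟨h1, hW⟩)
    have hC : S.rep n z ∉ S.C n := fun hC => h2 (Or.inr hC)
    refine ⟨hW, ?_⟩
    by_contra hne
    have hact := S.active_of_mem_W hW
    obtain ⟨-, hxW, hWO, hWs, hloc, -, hCW, hCC, hcov⟩ := S.cell n hact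
    rcases hcov _ hW hne with h | h
    · exact hC h
    · exact hf h

theorem openC (S : Seq X s e) (n : ℕ) : IsOpen (S.C n) := by
  by_cases h : S.rep n (e n) ∈ S.O n
  · exact (S.cell n h).2.2.2.2.2.1
  · rw [(S.nocell n h).2]
    exact isOpen_empty

theorem exists_local (S : Seq X s e) (hs : Refl X s) (n : ℕ) :
    ∀ y, S.rep n y ∈ S.O n → ∃ (N : Set X) (g : X → X), IsOpen N ∧ y ∈ N ∧ Continuous g ∧
      Function.Injective g ∧ (∀ z w, g (s z w) = s (g z) (g w)) ∧
      ∀ w ∈ N, S.rep n w = g w ∧ S.par n w = S.par n y := by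
  induction n with
  | zero =>
    intro y _
    refine ⟨univ, id, isOpen_univ, mem_univ _, continuous_id, Function.injective_id,
      fun _ _ => rfl, fun w _ => ?_⟩
    rw [S.rep0, S.par0, S.par0]
    exact ⟨rfl, rfl⟩
  | succ n ih =>
    intro y hy
    have hyn : S.rep n y ∈ S.O n := by
      by_contra h
      rw [(S.done_succ hs h).1] at hy
      exact h (S.O_succ_sub n hy)
    obtain ⟨N, g, hN, hyN, hg, hinj, hgs, hw⟩ := ih y hyn
    have hgy : S.rep n y = g y := (hw y hyN).1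
    by_cases hf : s (S.rep n (e n)) (S.rep n y) ∈ S.C n
    · refine ⟨N ∩ (fun w => s (S.rep n (e n)) (g w)) ⁻¹' (S.C n),
        fun w => s (S.rep n (e n)) (g w), hN.inter ((S.openC n).preimage ((hs.cont _).comp hg)),
        ⟨hyN, by rw [hgy] at hf; exact hf⟩, (hs.cont _).comp hg, ?_, ?_, ?_⟩
      · intro a b hab
        have := congrArg (s (S.rep n (e n))) hab
        simp only [hs.invol] at this
        exact hinj this
      · intro z w
        simp only [hgs]
        rw [hs.quandle]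
      · rintro w ⟨hwN, hwC⟩
        obtain ⟨h1, h2⟩ := hw w hwN
        have hfw : s (S.rep n (e n)) (S.rep n w) ∈ S.C n := by rw [h1]; exact hwC
        rw [S.repS1 n w hfw, S.parS1 n w hfw, S.parS1 n y hf, h1, h2]
        exact ⟨rfl, rfl⟩
    · have hmem : g y ∈ S.O (n + 1) := by
        rw [S.repS2 n y hf, hgy] at hy
        exact hy
      refine ⟨N ∩ g ⁻¹' (S.O (n + 1)), g, hN.inter ((S.openO _).preimage hg), ⟨hyN, hmem⟩, hg,
        hinj, hgs, ?_⟩
      rintro w ⟨hwN, hwO⟩
      obtain ⟨h1, h2⟩ := hw w hwN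
      have hfw : s (S.rep n (e n)) (S.rep n w) ∉ S.C n := by
        rw [h1]
        exact S.not_flip hs hwO
      rw [S.repS2 n w hfw, S.parS2 n w hfw, S.parS2 n y hf, h1, h2]
      exact ⟨rfl, rfl⟩

theorem col_good (S : Seq X s e) (hs : Refl X s) (he : Function.Surjective e) (z : X) :
    ∃ N : Set X, IsOpen N ∧ z ∈ N ∧ ∀ y ∈ N, s z y ≠ y → S.col (s z y) ≠ S.col y := by
  obtain ⟨n, h1, h2⟩ := S.exists_first hs he z
  obtain ⟨hW, hfix⟩ := S.fix_of_first hs h1 h2
  obtain ⟨N, g, hN, hzN, hg, hinj, hgs, hw⟩ := S.exists_local hs n z h1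
  have hact := S.active_of_mem_W hW
  obtain ⟨hWc, hxW, hWO, hWs, hloc, -, hCW, hCC, hcov⟩ := S.cell n hact
  have hgz : S.rep n z = g z := (hw z hzN).1
  have hsz : s (g z) = s (S.rep n (e n)) := by
    rw [← hgz]
    exact hloc _ hW hfix
  let M : Set X := N ∩ g ⁻¹' (S.W n)
  have hM : IsOpen M := hN.inter (hWc.isOpen.preimage hg)
  have hzM : z ∈ M := ⟨hzN, by change g z ∈ S.W n; rw [← hgz]; exact hW⟩
  refine ⟨M ∩ s z ⁻¹' M, hM.inter (hM.preimage (hs.cont z)), ⟨hzM, ?_⟩, ?_⟩
  · change s z z ∈ M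
    rw [hs.self]
    exact hzM
  · rintro y ⟨hyM, hyM'⟩ hne
    have hcol : ∀ w ∈ M, S.col w = xor (S.par n z) (S.col (g w)) := by
      rintro w ⟨hwN, hwW⟩
      obtain ⟨h3, h4⟩ := hw w hwN
      have hmem : S.rep n w ∈ S.O n := by rw [h3]; exact hWO hwW
      rw [S.col_shift hs he hmem, h3, h4]
    rw [hcol y hyM, hcol (s z y) hyM', hgs, hsz]
    have hne' : s (S.rep n (e n)) (g y) ≠ g y := by
      rw [← hsz, ← hgs]
      exact fun h => hne (hinj h)
    rw [S.col_flip hs he hyM.2 hne']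
    cases S.par n z <;> cases S.col (g y) <;> simp

end Seq

/-- On a countable zero-dimensional space with a family of local reflections there is a
two-colouring which near every point `z` changes along the reflection `s z`. -/
theorem exists_reflection_colouring {X : Type*} [TopologicalSpace X] [T2Space X] [Countable X]
    (hz : ∀ x : X, ∀ U : Set X, IsOpen U → x ∈ U → ∃ W, IsClopen W ∧ x ∈ W ∧ W ⊆ U)
    {s : X → X → X} (hs : Refl X s) :
    ∃ c : X → Bool, ∀ z, ∃ N : Set X, IsOpen N ∧ z ∈ N ∧ ∀ y ∈ N, s z y ≠ y → c (s z y) ≠ c y := by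
  rcases isEmpty_or_nonempty X with hemp | hne
  · exact ⟨fun _ => false, fun z => (hemp.false z).elim⟩
  obtain ⟨e, he⟩ := exists_surjective_nat X
  obtain ⟨S⟩ := exists_seq hz hs e
  exact ⟨S.col, fun z => S.col_good hs he z⟩

end Pool.Agent.H2.Irres
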