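import Pool.Agent.H2.Irres.ChainCase
import Pool.Agent.H2.Irres.ReflectFinal

set_option autoImplicit false
set_option linter.unusedSectionVars false

open Topology Set Cardinal

namespace Pool.Agent.H2.Irres

section Boolean

variable {G : Type*} [Group G] [TopologicalSpace G] [IsTopologicalGroup G] [T2Space G]

/-- If involutions accumulate at the identity and have open centralizers then there is an
infinite Boolean subgroup. -/
theorem exists_infinite_boolean
    (h2 : ∀ a : G, a * a = 1 → ∃ V : Set G, IsOpen V ∧ (1 : G) ∈ V ∧ ∀ t ∈ V, a * t = t * a)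
    (hacc : ∀ V : Set G, IsOpen V → (1 : G) ∈ V → ∃ t ∈ V, t ≠ 1 ∧ t * t = 1) :
    ∃ H : Subgroup G, (H : Set G).Infinite ∧ ∀ x ∈ H, x * x = 1 := by
  classical
  let S : Set (Set G) := {A | ∀ x ∈ A, x * x = 1 ∧ ∀ y ∈ A, x * y = y * x}
  obtain ⟨A, hA⟩ : ∃ A, Maximal (· ∈ S) A := by
    refine zorn_le₀ S fun ch hch hchain => ?_
    refine ⟨⋃ D ∈ ch, D, ?_, fun D hD => subset_biUnion_of_mem (u := fun D : Set G => D) hD⟩
    intro x hx
    simp only [mem_iUnion, exists_prop] at hx
    obtain ⟨D, hD, hxD⟩ := hx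
    refine ⟨(hch hD x hxD).1, ?_⟩
    intro y hy
    simp only [mem_iUnion, exists_prop] at hy
    obtain ⟨E, hE, hyE⟩ := hy
    rcases hchain.total hD hE with hle | hle
    · exact (hch hE x (hle hxD)).2 y hyE
    · exact (hch hD x hxD).2 y (hle hyE)
  have hAS := hA.prop
  by_cases hfin : A.Finite
  · exfalso
    -- a common open centralizer
    have hV : ∃ V : Set G, IsOpen V ∧ (1 : G) ∈ V ∧ ∀ t ∈ V, ∀ a ∈ A, a * t = t * a := by
      choose V hVo h1V hVc using fun a : A => h2 a.1 (hAS a.1 a.2).1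
      haveI : Finite A := hfin
      refine ⟨⋂ a, V a, isOpen_iInter_of_finite hVo, mem_iInter.2 h1V, ?_⟩
      intro t ht a ha
      exact hVc ⟨a, ha⟩ t (mem_iInter.1 ht _)
    obtain ⟨V, hVo, h1V, hVc⟩ := hV
    have hclosed : IsClosed (A \ {1}) := (hfin.subset sdiff_subset).isClosed
    obtain ⟨t, ⟨htV, htA⟩, htne, ht2⟩ := hacc (V ∩ (A \ {1})ᶜ) (hVo.inter hclosed.isOpen_compl)
      ⟨h1V, fun h => h.2 rfl⟩
    have htA' : t ∉ A := fun h => htA ⟨h, htne⟩
    have hins : insert t A ∈ S := by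
      intro x hx
      rcases hx with rfl | hx
      · refine ⟨ht2, ?_⟩
        rintro y (rfl | hy)
        · rfl
        · exact (hVc _ htV y hy).symm
      · refine ⟨(hAS x hx).1, ?_⟩
        rintro y (rfl | hy)
        · exact hVc _ htV x hx
        · exact (hAS x hx).2 y hy
    exact htA' (hA.le_of_ge hins (subset_insert t A) (mem_insert t A))
  · refine ⟨Subgroup.closure A, ?_, ?_⟩
    · exact fun h => hfin (h.subset Subgroup.subset_closure)
    · have hcomm : ∀ x ∈ Subgroup.closure A, ∀ y ∈ Subgroup.closure A, x * y = y * x := by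
        intro x hx y hy
        letI := Subgroup.closureCommGroupOfComm (k := A) (fun x hx y hy => (hAS x hx).2 y hy)
        have := mul_comm (⟨x, hx⟩ : Subgroup.closure A) ⟨y, hy⟩
        exact congrArg Subtype.val this
      intro x hx
      induction hx using Subgroup.closure_induction with
      | mem x hx => exact (hAS x hx).1
      | one => simp
      | mul x y hx hy ihx ihy =>
        calc x * y * (x * y) = x * (y * x) * y := by group
          _ = x * (x * y) * y := by rw [hcomm x hx y hy]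
          _ = (x * x) * (y * y) := by group
          _ = 1 := by rw [ihx, ihy, one_mul]
      | inv x hx ihx =>
        rw [← mul_inv_rev, ihx, inv_one]

end Boolean

section Countable

variable {G : Type*} [Group G] [TopologicalSpace G] [IsTopologicalGroup G] [T2Space G]
  [Countable G]

theorem clopen_basis (x : G) (U : Set G) (hU : IsOpen U) (hx : x ∈ U) :
    ∃ W, IsClopen W ∧ x ∈ W ∧ W ⊆ U := by
  letI := IsTopologicalGroup.rightUniformSpace G
  have hcard : Cardinal.mk G < Cardinal.continuum :=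
    lt_of_le_of_lt (Cardinal.mk_le_aleph0_iff.2 inferInstance) Cardinal.aleph0_lt_continuum
  have hb := CompletelyRegularSpace.isTopologicalBasis_clopens_of_cardinalMk_lt_continuum
    (X := G) hcard
  obtain ⟨W, hW, hxW, hWU⟩ := hb.exists_subset_of_mem_open hx hU
  exact ⟨W, hW, hxW, hWU⟩

/-- reflections defined by an involution -/
theorem refl_conj (b : G) (hb : b * b = 1) : Refl G (fun z x => z * b * z⁻¹ * x * b) where
  cont z := by fun_prop
  invol z y := by
    have h1 : z * b * z⁻¹ * (z * b * z⁻¹ * y * b) * b = z * (b * b) * z⁻¹ * y * (b * b) := by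
      group
    change z * b * z⁻¹ * (z * b * z⁻¹ * y * b) * b = y
    rw [h1, hb]; group
  self z := by
    have h1 : z * b * z⁻¹ * z * b = z * (b * b) := by group
    change z * b * z⁻¹ * z * b = z
    rw [h1, hb, mul_one]
  quandle x y z := by
    have hbi : b⁻¹ = b := inv_eq_of_mul_eq_one_left hb
    change (x * b * x⁻¹ * y * b) * b * (x * b * x⁻¹ * y * b)⁻¹ * (x * b * x⁻¹ * z * b) * b =
      x * b * x⁻¹ * (y * b * y⁻¹ * z * b) * b
    have h1 : (x * b * x⁻¹ * y * b) * b * (x * b * x⁻¹ * y * b)⁻¹ * (x * b * x⁻¹ * z * b) * b =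
      x * b * x⁻¹ * y * b * (b * b⁻¹) * y⁻¹ * z * b * b := by group
    rw [h1, mul_inv_cancel, mul_one]
    group
  loc z := by
    refine ⟨univ, isOpen_univ, mem_univ z, ?_⟩
    intro u _ hu
    change z * b * z⁻¹ * u * b = u at hu
    have hbi : b⁻¹ = b := inv_eq_of_mul_eq_one_left hb
    have h1 : z * b * z⁻¹ = u * b * u⁻¹ := by
      have h2 : z * b * z⁻¹ = u * b⁻¹ * u⁻¹ := by
        rw [eq_mul_inv_iff_mul_eq, eq_mul_inv_iff_mul_eq]
        exact hu
      rw [h2, hbi]
    funext x
    change u * b * u⁻¹ * x * b = z * b * z⁻¹ * x * b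
    rw [h1]

theorem centralizer_of_countable (hHI : HI G) (b : G) (hb : b * b = 1) :
    ∃ V : Set G, IsOpen V ∧ (1 : G) ∈ V ∧ ∀ t ∈ V, b * t = t * b := by
  by_contra hcon
  push Not at hcon
  obtain ⟨c, hc⟩ := exists_reflection_colouring (X := G) clopen_basis (refl_conj b hb)
  obtain ⟨O, hO, ⟨z, hzO⟩, hcO, -⟩ := hHI.two c c
  obtain ⟨N, hN, hzN, hNc⟩ := hc z
  let V : Set G := ((fun t => z * t) ⁻¹' O ∩ (fun t => z * (b * t * b)) ⁻¹' O) ∩
    (fun t => z * t) ⁻¹' N
  have hV : IsOpen V := by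
    refine (IsOpen.inter ?_ ?_).inter ?_
    · exact hO.preimage (by fun_prop)
    · exact hO.preimage (by fun_prop)
    · exact hN.preimage (by fun_prop)
  have h1V : (1 : G) ∈ V := by
    refine ⟨⟨?_, ?_⟩, ?_⟩
    · simpa using hzO
    · simpa [hb] using hzO
    · simpa using hzN
  obtain ⟨t, ⟨⟨ht1, ht2⟩, ht3⟩, htne⟩ := hcon V hV h1V
  have he : z * b * z⁻¹ * (z * t) * b = z * (b * t * b) := by group
  have hne : z * b * z⁻¹ * (z * t) * b ≠ z * t := by
    rw [he]
    intro h
    apply htne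
    have h1 : b * t * b = t := mul_left_cancel h
    calc b * t = b * t * (b * b) := by rw [hb, mul_one]
      _ = (b * t * b) * b := by group
      _ = t * b := by rw [h1]
  refine hNc (z * t) ht3 hne ?_
  change c (z * b * z⁻¹ * (z * t) * b) = c (z * t)
  rw [he]
  exact hcO _ ht2 _ ht1

theorem involutions_of_countable (hHI : HI G)
    (hnd : ∀ V : Set G, IsOpen V → (1 : G) ∈ V → ∃ t ∈ V, t ≠ 1) :
    ∀ V : Set G, IsOpen V → (1 : G) ∈ V → ∃ t ∈ V, t ≠ 1 ∧ t * t = 1 := by
  by_contra hcon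
  push Not at hcon
  obtain ⟨V0, hV0, h1V0, hV0'⟩ := hcon
  have hs : Refl G (fun z x => z * x⁻¹ * z) := {
    cont := fun z => by fun_prop
    invol := fun z y => by
      change z * (z * y⁻¹ * z)⁻¹ * z = y
      group
    self := fun z => by
      change z * z⁻¹ * z = z
      group
    quandle := fun x y z => by
      change (x * y⁻¹ * x) * (x * z⁻¹ * x)⁻¹ * (x * y⁻¹ * x) = x * (y * z⁻¹ * y)⁻¹ * x
      group
    loc := fun z => by
      refine ⟨(fun u => z⁻¹ * u) ⁻¹' V0, hV0.preimage (by fun_prop), ?_, ?_⟩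
      · simpa using h1V0
      · intro u hu hfix
        change z * u⁻¹ * z = u at hfix
        have h1 : (z⁻¹ * u) * (z⁻¹ * u) = 1 := by
          calc (z⁻¹ * u) * (z⁻¹ * u) = z⁻¹ * u * z⁻¹ * (z * u⁻¹ * z) := by rw [hfix]; group
            _ = 1 := by group
        have h2 : z⁻¹ * u = 1 := by
          by_contra hne
          exact hV0' _ hu hne h1
        have h3 : u = z := by
          rw [inv_mul_eq_one] at h2
          exact h2.symm
        rw [h3] }
  obtain ⟨c, hc⟩ := exists_reflection_colouring (X := G) clopen_basis hs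
  obtain ⟨O, hO, ⟨z, hzO⟩, hcO, -⟩ := hHI.two c c
  obtain ⟨N, hN, hzN, hNc⟩ := hc z
  let V : Set G := (((fun t => z * t) ⁻¹' O ∩ (fun t => z * t⁻¹) ⁻¹' O) ∩
    (fun t => z * t) ⁻¹' N) ∩ V0
  have hV : IsOpen V := by
    refine ((IsOpen.inter ?_ ?_).inter ?_).inter hV0
    · exact hO.preimage (by fun_prop)
    · exact hO.preimage (by fun_prop)
    · exact hN.preimage (by fun_prop)
  have h1V : (1 : G) ∈ V := by
    refine ⟨⟨⟨?_, ?_⟩, ?_⟩, h1V0⟩
    · simpa using hzO
    · simpa using hzO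
    · simpa using hzN
  obtain ⟨t, ⟨⟨⟨ht1, ht2⟩, ht3⟩, ht4⟩, htne⟩ := hnd V hV h1V
  have he : z * (z * t)⁻¹ * z = z * t⁻¹ := by group
  have hne : z * (z * t)⁻¹ * z ≠ z * t := by
    rw [he]
    intro h
    apply hV0' t ht4 htne
    have h1 : t⁻¹ = t := mul_left_cancel h
    calc t * t = t⁻¹ * t := by rw [h1]
      _ = 1 := by simp
  refine hNc (z * t) ht3 hne ?_
  change c (z * (z * t)⁻¹ * z) = c (z * t)
  rw [he]
  exact hcO _ ht2 _ ht1

end Countable

end Pool.Agent.H2.Irres
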