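import Mathlib

set_option autoImplicit false

open Topology Set

namespace Pool.Agent.H2.Irres

/-- Hereditary irresolvability, in terms of two-colourings: on every nonempty subset every
two-colouring is constant on some nonempty relatively open piece. -/
def HI (X : Type*) [TopologicalSpace X] : Prop :=
  ∀ (A : Set X) (c : X → Bool), A.Nonempty →
    ∃ O : Set X, IsOpen O ∧ (O ∩ A).Nonempty ∧ ∀ x ∈ O ∩ A, ∀ y ∈ O ∩ A, c x = c y

/-- A homogeneous irresolvable space (here: a group) is hereditarily irresolvable. -/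
theorem hi_of_irresolvable {G : Type*} [Group G] [TopologicalSpace G] [IsTopologicalGroup G]
    (h : ∀ A B : Set G, Dense A → Dense B → (A ∩ B).Nonempty) : HI G := by
  classical
  by_contra hcon
  unfold HI at hcon
  push Not at hcon
  obtain ⟨A, c, ⟨a, ha⟩, hA⟩ := hcon
  set A1 : Set G := {x | x ∈ A ∧ c x = true} with hA1
  set A2 : Set G := {x | x ∈ A ∧ c x = false} with hA2
  have hcl1 : A ⊆ closure A1 := by
    intro x hx
    rw [mem_closure_iff]
    intro O hO hxO
    obtain ⟨u, hu, v, hv, huv⟩ := hA O hO ⟨x, hxO, hx⟩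
    cases hcu : c u with
    | true => exact ⟨u, hu.1, hu.2, hcu⟩
    | false =>
      cases hcv : c v with
      | true => exact ⟨v, hv.1, hv.2, hcv⟩
      | false => exact absurd (hcu.trans hcv.symm) huv
  have hcl2 : A ⊆ closure A2 := by
    intro x hx
    rw [mem_closure_iff]
    intro O hO hxO
    obtain ⟨u, hu, v, hv, huv⟩ := hA O hO ⟨x, hxO, hx⟩
    cases hcu : c u with
    | false => exact ⟨u, hu.1, hu.2, hcu⟩
    | true =>
      cases hcv : c v with
      | false => exact ⟨v, hv.1, hv.2, hcv⟩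
      | true => exact absurd (hcu.trans hcv.symm) huv
  -- Zorn
  let S : Set (Set G × Set G) :=
    {D | (∀ x, x ∈ D.1 → x ∉ D.2) ∧ D.1 ⊆ closure D.2 ∧ D.2 ⊆ closure D.1}
  obtain ⟨D, hD⟩ : ∃ D, Maximal (· ∈ S) D := by
    refine zorn_le₀ S fun ch hch hchain => ?_
    refine ⟨(⋃ D ∈ ch, D.1, ⋃ D ∈ ch, D.2), ⟨?_, ?_, ?_⟩, ?_⟩
    · intro x hx hx'
      simp only [mem_iUnion, exists_prop] at hx hx'
      obtain ⟨D, hD, hxD⟩ := hx
      obtain ⟨E, hE, hxE⟩ := hx'
      rcases hchain.total hD hE with hle | hle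
      · exact (hch hE).1 x (hle.1 hxD) hxE
      · exact (hch hD).1 x hxD (hle.2 hxE)
    · intro x hx
      simp only [mem_iUnion, exists_prop] at hx
      obtain ⟨D, hD, hxD⟩ := hx
      exact closure_mono (subset_biUnion_of_mem (u := fun D : Set G × Set G => D.2) hD)
        ((hch hD).2.1 hxD)
    · intro x hx
      simp only [mem_iUnion, exists_prop] at hx
      obtain ⟨D, hD, hxD⟩ := hx
      exact closure_mono (subset_biUnion_of_mem (u := fun D : Set G × Set G => D.1) hD)
        ((hch hD).2.2 hxD)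
    · intro D hD
      exact ⟨subset_biUnion_of_mem (u := fun D : Set G × Set G => D.1) hD,
        subset_biUnion_of_mem (u := fun D : Set G × Set G => D.2) hD⟩
  obtain ⟨hdis, h12, h21⟩ := hD.prop
  by_cases hZ : closure D.1 = univ
  · have hd1 : Dense D.1 := dense_iff_closure_eq.2 hZ
    have hd2 : Dense D.2 := by
      rw [dense_iff_closure_eq, eq_univ_iff_forall]
      intro x
      have : closure D.1 ⊆ closure D.2 := closure_minimal h12 isClosed_closure
      exact this (hZ ▸ mem_univ x)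
    obtain ⟨x, hx1, hx2⟩ := h _ _ hd1 hd2
    exact hdis x hx1 hx2
  · obtain ⟨x, hx⟩ : ∃ x, x ∉ closure D.1 := by
      by_contra hall
      push Not at hall
      exact hZ (eq_univ_of_forall hall)
    set O : Set G := (closure D.1)ᶜ with hO
    have hOo : IsOpen O := isClosed_closure.isOpen_compl
    set g : G := x * a⁻¹ with hg
    let L : G ≃ₜ G := Homeomorph.mulLeft g
    have hLa : L a = x := by
      change g * a = x
      rw [hg]; group
    have key : ∀ B C : Set G, B ⊆ closure C → O ∩ L '' B ⊆ closure (O ∩ L '' C) := by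
      intro B C hBC y hy
      have h1 : y ∈ O ∩ closure (L '' C) := by
        refine ⟨hy.1, ?_⟩
        rw [← L.image_closure]
        exact image_mono hBC hy.2
      exact hOo.inter_closure h1
    have hA12 : A1 ⊆ closure A2 := fun y hy => hcl2 hy.1
    have hA21 : A2 ⊆ closure A1 := fun y hy => hcl1 hy.1
    have hnot2 : ∀ y, y ∈ O → y ∉ D.2 := fun y hy hy2 => hy (h21 hy2)
    have hnot1 : ∀ y, y ∈ O → y ∉ D.1 := fun y hy hy2 => hy (subset_closure hy2)
    have hE : (D.1 ∪ (O ∩ L '' A1), D.2 ∪ (O ∩ L '' A2)) ∈ S := by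
      refine ⟨?_, ?_, ?_⟩
      · rintro y (hy | hy) (hy' | hy')
        · exact hdis y hy hy'
        · exact hnot1 y hy'.1 hy
        · exact hnot2 y hy.1 hy'
        · obtain ⟨u, hu, rfl⟩ := hy.2
          obtain ⟨v, hv, hvu⟩ := hy'.2
          have : v = u := L.injective hvu
          subst this
          have h1 := hu.2
          have h2 := hv.2
          rw [h1] at h2
          exact absurd h2 (by simp)
      · rintro y (hy | hy)
        · exact closure_mono subset_union_left (h12 hy)
        · exact closure_mono subset_union_right (key _ _ hA12 hy)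
      · rintro y (hy | hy)
        · exact closure_mono subset_union_left (h21 hy)
        · exact closure_mono subset_union_right (key _ _ hA21 hy)
    have hle : D ≤ (D.1 ∪ (O ∩ L '' A1), D.2 ∪ (O ∩ L '' A2)) :=
      ⟨subset_union_left, subset_union_left⟩
    have hge := hD.le_of_ge hE hle
    have hxO : x ∈ O := hx
    cases hca : c a with
    | true =>
      have : x ∈ D.1 := hge.1 (Or.inr ⟨hxO, a, ⟨ha, hca⟩, hLa⟩)
      exact hnot1 x hxO this
    | false =>
      have : x ∈ D.2 := hge.2 (Or.inr ⟨hxO, a, ⟨ha, hca⟩, hLa⟩)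
      exact hnot2 x hxO this

theorem HI.of_isEmbedding {X Y : Type*} [TopologicalSpace X] [TopologicalSpace Y]
    (h : HI X) {f : Y → X} (hf : IsEmbedding f) : HI Y := by
  intro A c hA
  obtain ⟨O, hO, ⟨x, hxO, y, hy, rfl⟩, hc⟩ :=
    h (f '' A) (Function.extend f c fun _ => false) (hA.image f)
  refine ⟨f ⁻¹' O, hO.preimage hf.continuous, ⟨y, hxO, hy⟩, ?_⟩
  intro u hu v hv
  have := hc (f u) ⟨hu.1, u, hu.2, rfl⟩ (f v) ⟨hv.1, v, hv.2, rfl⟩
  rwa [hf.injective.extend_apply, hf.injective.extend_apply] at this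

/-- two colourings simultaneously, on the whole space -/
theorem HI.two {X : Type*} [TopologicalSpace X] [Nonempty X] (h : HI X) (c d : X → Bool) :
    ∃ O : Set X, IsOpen O ∧ O.Nonempty ∧ (∀ x ∈ O, ∀ y ∈ O, c x = c y) ∧
      ∀ x ∈ O, ∀ y ∈ O, d x = d y := by
  obtain ⟨O, hO, hne, hc⟩ := h univ c univ_nonempty
  obtain ⟨P, hP, hne', hd⟩ := h (O ∩ univ) d hne
  refine ⟨P ∩ O, hP.inter hO, ?_, ?_, ?_⟩
  · obtain ⟨x, hx⟩ := hne'
    exact ⟨x, hx.1, hx.2.1⟩
  · intro x hx y hy
    exact hc x ⟨hx.2, trivial⟩ y ⟨hy.2, trivial⟩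
  · intro x hx y hy
    exact hd x ⟨hx.1, hx.2, trivial⟩ y ⟨hy.1, hy.2, trivial⟩

theorem HI.t0 {X : Type*} [TopologicalSpace X] (h : HI X) : T0Space X := by
  classical
  refine ⟨fun x y hxy => ?_⟩
  by_contra hne
  obtain ⟨O, hO, hOA, hc⟩ := h {x, y} (fun z => decide (z = x)) ⟨x, by simp⟩
  have hiff : x ∈ O ↔ y ∈ O := hxy.mem_open_iff hO
  have hx : x ∈ O := by
    obtain ⟨z, hz, hz'⟩ := hOA
    rcases hz' with rfl | rfl
    · exact hz
    · exact hiff.2 hz
  have hy : y ∈ O := hiff.1 hx
  have := hc x ⟨hx, by simp⟩ y ⟨hy, by simp⟩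
  simp [Ne.symm hne] at this

/-- A permutation of a set has a colouring by four colours which changes along every
nontrivial step. -/
theorem exists_colouring {Q : Type*} (σ : Equiv.Perm Q) :
    ∃ c d : Q → Bool, ∀ q, σ q ≠ q → c (σ q) ≠ c q ∨ d (σ q) ≠ d q := by
  classical
  obtain ⟨_, hwf⟩ := exists_wellFoundedLT Q
  have key : ∀ τ : Q → Q, ∃ c : Q → Bool, ∀ q, τ q < q → c q = !(c (τ q)) := by
    intro τ
    let c : Q → Bool := (wellFounded_lt (α := Q)).fix fun q ih =>
      if h : τ q < q then !(ih (τ q) h) else false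
    refine ⟨c, fun q hq => ?_⟩
    have := (wellFounded_lt (α := Q)).fix_eq (fun q ih =>
      if h : τ q < q then !(ih (τ q) h) else false) q
    change c q = _ at this
    rw [this, dif_pos hq]
  obtain ⟨c, hc⟩ := key σ
  obtain ⟨d, hd⟩ := key σ.symm
  refine ⟨c, d, fun q hq => ?_⟩
  rcases lt_or_gt_of_ne hq with hlt | hgt
  · left
    have := hc q hlt
    rw [this]
    cases c (σ q) <;> simp
  · right
    have := hd (σ q) (by simpa using hgt)
    rw [this]
    simp

end Pool.Agent.H2.Irres
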