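import Pool.Agent.H2.Irres.Basic

set_option autoImplicit false
set_option linter.unusedSectionVars false

open Topology Set

namespace Pool.Agent.H2.Irres

variable {G : Type*} [Group G] [TopologicalSpace G] [IsTopologicalGroup G]

/-- The group is the union of a chain of discrete subgroups. -/
structure DChain {ι : Type*} [LinearOrder ι] (H : ι → Subgroup G) : Prop where
  mono : Monotone H
  cov : ∀ x, ∃ i, x ∈ H i
  disc : ∀ i, ∃ V : Set G, IsOpen V ∧ (1 : G) ∈ V ∧ ∀ x ∈ V, x ∈ H i → x = 1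

section
variable {ι : Type*} [LinearOrder ι] {H : ι → Subgroup G}

theorem DChain.two (hH : DChain H) (x y : G) : ∃ i, x ∈ H i ∧ y ∈ H i := by
  obtain ⟨i, hi⟩ := hH.cov x
  obtain ⟨j, hj⟩ := hH.cov y
  exact ⟨max i j, hH.mono (le_max_left _ _) hi, hH.mono (le_max_right _ _) hj⟩

/-- the relation used for conjugation by `g` -/
def conjRel (H : ι → Subgroup G) (g x y : G) : Prop :=
  x = y ∨ ∃ i, g ∈ H i ∧ y * x⁻¹ ∈ H i ∧ g * x * g⁻¹ * x⁻¹ ∉ H i

theorem comm_mem_iff {K : Subgroup G} {g x y : G} (hg : g ∈ K) (hz : y * x⁻¹ ∈ K) :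
    g * y * g⁻¹ * y⁻¹ ∈ K ↔ g * x * g⁻¹ * x⁻¹ ∈ K := by
  have h1 : g * y * g⁻¹ * y⁻¹ =
      (g * (y * x⁻¹) * g⁻¹) * (g * x * g⁻¹ * x⁻¹) * (y * x⁻¹)⁻¹ := by group
  have h2 : g * (y * x⁻¹) * g⁻¹ ∈ K := K.mul_mem (K.mul_mem hg hz) (K.inv_mem hg)
  rw [h1]
  constructor
  · intro h
    have h3 := K.mul_mem h hz
    rw [inv_mul_cancel_right] at h3
    have h4 := K.mul_mem (K.inv_mem h2) h3
    rwa [inv_mul_cancel_left] at h4
  · intro h
    exact K.mul_mem (K.mul_mem h2 h) (K.inv_mem hz)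

theorem conjRel_equiv (hH : DChain H) (g : G) : Equivalence (conjRel H g) where
  refl x := Or.inl rfl
  symm := by
    rintro x y (h | ⟨i, hg, hz, hd⟩)
    · exact Or.inl h.symm
    · refine Or.inr ⟨i, hg, ?_, ?_⟩
      · have := (H i).inv_mem hz
        simpa using this
      · rwa [comm_mem_iff hg hz]
  trans := by
    rintro x y w (h | ⟨i, hg, hz, hd⟩) h'
    · exact h ▸ h'
    · rcases h' with h' | ⟨j, hg', hz', hd'⟩
      · subst h'
        exact Or.inr ⟨i, hg, hz, hd⟩
      · right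
        have key : w * x⁻¹ = (w * y⁻¹) * (y * x⁻¹) := by group
        rcases le_total i j with hij | hij
        · have hzj := hH.mono hij hz
          refine ⟨j, hg', ?_, ?_⟩
          · rw [key]; exact (H j).mul_mem hz' hzj
          · rwa [comm_mem_iff hg' hzj] at hd'
        · have hzi := hH.mono hij hz'
          refine ⟨i, hg, ?_, hd⟩
          rw [key]; exact (H i).mul_mem hzi hz

theorem conjRel_conj (g x y : G) (h : conjRel H g x y) :
    conjRel H g (g * x * g⁻¹) (g * y * g⁻¹) := by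
  rcases h with h | ⟨i, hg, hz, hd⟩
  · left; rw [h]
  · refine Or.inr ⟨i, hg, ?_, ?_⟩
    · have : g * y * g⁻¹ * (g * x * g⁻¹)⁻¹ = g * (y * x⁻¹) * g⁻¹ := by group
      rw [this]
      exact (H i).mul_mem ((H i).mul_mem hg hz) ((H i).inv_mem hg)
    · intro h
      apply hd
      have : g * x * g⁻¹ * x⁻¹ =
          g⁻¹ * (g * (g * x * g⁻¹) * g⁻¹ * (g * x * g⁻¹)⁻¹) * g := by group
      rw [this]
      exact (H i).mul_mem ((H i).mul_mem ((H i).inv_mem hg) h) hg

theorem conjRel_conj_inv (g x y : G) (h : conjRel H g (g * x * g⁻¹) (g * y * g⁻¹)) :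
    conjRel H g x y := by
  rcases h with h | ⟨i, hg, hz, hd⟩
  · left
    have h1 := congrArg (fun t => g⁻¹ * t * g) h
    simpa [mul_assoc] using h1
  · refine Or.inr ⟨i, hg, ?_, ?_⟩
    · have : y * x⁻¹ = g⁻¹ * (g * y * g⁻¹ * (g * x * g⁻¹)⁻¹) * g := by group
      rw [this]
      exact (H i).mul_mem ((H i).mul_mem ((H i).inv_mem hg) hz) hg
    · intro h
      apply hd
      have : g * (g * x * g⁻¹) * g⁻¹ * (g * x * g⁻¹)⁻¹ = g * (g * x * g⁻¹ * x⁻¹) * g⁻¹ := by
        group
      rw [this]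
      exact (H i).mul_mem ((H i).mul_mem hg h) ((H i).inv_mem hg)

/-- In a hereditarily irresolvable group which is the union of a chain of discrete subgroups all
centralizers are open. -/
theorem centralizer_of_chain (hHI : HI G) (hH : DChain H) (g : G) :
    ∃ V : Set G, IsOpen V ∧ (1 : G) ∈ V ∧ ∀ t ∈ V, g * t = t * g := by
  classical
  by_contra hcon
  push Not at hcon
  let R : Setoid G := ⟨conjRel H g, conjRel_equiv hH g⟩
  let σ : Equiv.Perm (Quotient R) := Quotient.congr (ra := R) (rb := R) (MulAut.conj g).toEquiv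
    (fun x y => ⟨fun h => conjRel_conj g x y h, fun h => conjRel_conj_inv g x y h⟩)
  have hσ : ∀ x, σ (Quotient.mk R x) = Quotient.mk R (g * x * g⁻¹) := fun x => rfl
  obtain ⟨c, d, hcd⟩ := exists_colouring σ
  obtain ⟨O, hO, ⟨z, hzO⟩, hc, hd⟩ := hHI.two (fun x => c (Quotient.mk R x))
    (fun x => d (Quotient.mk R x))
  obtain ⟨i, hzi, hgi⟩ := hH.two z g
  obtain ⟨Vi, hVi, h1Vi, hVi'⟩ := hH.disc i
  let V : Set G := ((fun t => z * t) ⁻¹' O ∩ (fun t => z * (g * t * g⁻¹)) ⁻¹' O) ∩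
    (fun t => g * t * g⁻¹ * t⁻¹) ⁻¹' Vi
  have hV : IsOpen V := by
    refine (IsOpen.inter ?_ ?_).inter ?_
    · exact hO.preimage (by fun_prop)
    · exact hO.preimage (by fun_prop)
    · exact hVi.preimage (by fun_prop)
  have h1V : (1 : G) ∈ V := by
    refine ⟨⟨?_, ?_⟩, ?_⟩
    · simpa using hzO
    · simpa using hzO
    · simpa using h1Vi
  obtain ⟨t, ⟨⟨ht1, ht2⟩, ht3⟩, htne⟩ := hcon V hV h1V
  have hδ : g * t * g⁻¹ * t⁻¹ ∉ H i := by
    intro hmem
    have := hVi' _ ht3 hmem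
    apply htne
    have h4 : g * t * g⁻¹ = t := by
      rwa [mul_inv_eq_one] at this
    calc g * t = (g * t * g⁻¹) * g := by group
      _ = t * g := by rw [h4]
  have hδ' : g * (g * t * g⁻¹) * g⁻¹ * (g * t * g⁻¹)⁻¹ ∉ H i := by
    intro hmem
    apply hδ
    have : g * t * g⁻¹ * t⁻¹ =
        g⁻¹ * (g * (g * t * g⁻¹) * g⁻¹ * (g * t * g⁻¹)⁻¹) * g := by group
    rw [this]
    exact (H i).mul_mem ((H i).mul_mem ((H i).inv_mem hgi) hmem) hgi
  have e1 : Quotient.mk R (z * t) = Quotient.mk R t := by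
    symm
    refine Quotient.sound (Or.inr ⟨i, hgi, ?_, hδ⟩)
    simpa using hzi
  have e2 : Quotient.mk R (z * (g * t * g⁻¹)) = Quotient.mk R (g * t * g⁻¹) := by
    symm
    refine Quotient.sound (Or.inr ⟨i, hgi, ?_, hδ'⟩)
    simpa [mul_assoc] using hzi
  have hfix : σ (Quotient.mk R t) = Quotient.mk R t := by
    by_contra hne
    rcases hcd _ hne with h | h
    · apply h
      have := hc _ ht2 _ ht1
      simp only at this
      rw [e1, e2] at this
      rw [hσ]
      exact this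
    · apply h
      have := hd _ ht2 _ ht1
      simp only at this
      rw [e1, e2] at this
      rw [hσ]
      exact this
  rw [hσ] at hfix
  have hrel : conjRel H g t (g * t * g⁻¹) := Quotient.exact hfix.symm
  rcases hrel with h | ⟨j, -, h, h'⟩
  · apply htne
    calc g * t = (g * t * g⁻¹) * g := by group
      _ = t * g := by rw [← h]
  · exact h' h

/-- the relation used for inversion -/
def invRel (H : ι → Subgroup G) (x y : G) : Prop :=
  x = y ∨ ∃ i, y * x⁻¹ ∈ H i ∧ x⁻¹ * y ∈ H i ∧ x * x ∉ H i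

theorem sq_mem_iff {K : Subgroup G} {x y : G} (h1 : y * x⁻¹ ∈ K) (h2 : x⁻¹ * y ∈ K) :
    y * y ∈ K ↔ x * x ∈ K := by
  have h3 : y * y = (y * x⁻¹) * (x * x) * (x⁻¹ * y) := by group
  rw [h3]
  constructor
  · intro h
    have h4 := K.mul_mem h (K.inv_mem h2)
    rw [mul_inv_cancel_right] at h4
    have h5 := K.mul_mem (K.inv_mem h1) h4
    rwa [inv_mul_cancel_left] at h5
  · intro h
    exact K.mul_mem (K.mul_mem h1 h) h2

theorem invRel_equiv (hH : DChain H) : Equivalence (invRel H) where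
  refl x := Or.inl rfl
  symm := by
    rintro x y (h | ⟨i, h1, h2, hd⟩)
    · exact Or.inl h.symm
    · refine Or.inr ⟨i, ?_, ?_, ?_⟩
      · simpa using (H i).inv_mem h1
      · simpa using (H i).inv_mem h2
      · rwa [sq_mem_iff h1 h2]
  trans := by
    rintro x y w (h | ⟨i, h1, h2, hd⟩) h'
    · exact h ▸ h'
    · rcases h' with h' | ⟨j, h1', h2', hd'⟩
      · subst h'
        exact Or.inr ⟨i, h1, h2, hd⟩
      · right
        have key : w * x⁻¹ = (w * y⁻¹) * (y * x⁻¹) := by group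
        have key' : x⁻¹ * w = (x⁻¹ * y) * (y⁻¹ * w) := by group
        rcases le_total i j with hij | hij
        · have a1 := hH.mono hij h1
          have a2 := hH.mono hij h2
          refine ⟨j, ?_, ?_, ?_⟩
          · rw [key]; exact (H j).mul_mem h1' a1
          · rw [key']; exact (H j).mul_mem a2 h2'
          · rwa [sq_mem_iff a1 a2] at hd'
        · have a1 := hH.mono hij h1'
          have a2 := hH.mono hij h2'
          refine ⟨i, ?_, ?_, hd⟩
          · rw [key]; exact (H i).mul_mem a1 h1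
          · rw [key']; exact (H i).mul_mem h2 a2

theorem invRel_inv (x y : G) (h : invRel H x y) : invRel H x⁻¹ y⁻¹ := by
  rcases h with h | ⟨i, h1, h2, hd⟩
  · left; rw [h]
  · refine Or.inr ⟨i, ?_, ?_, ?_⟩
    · simpa using (H i).inv_mem h2
    · simpa using (H i).inv_mem h1
    · intro h
      apply hd
      simpa using (H i).inv_mem h

/-- In a nondiscrete hereditarily irresolvable group which is the union of a chain of discrete
subgroups the involutions accumulate at the identity. -/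
theorem involutions_of_chain (hHI : HI G) (hH : DChain H)
    (hcent : ∀ g : G, ∃ V : Set G, IsOpen V ∧ (1 : G) ∈ V ∧ ∀ t ∈ V, g * t = t * g)
    (hnd : ∀ V : Set G, IsOpen V → (1 : G) ∈ V → ∃ t ∈ V, t ≠ 1) :
    ∀ V : Set G, IsOpen V → (1 : G) ∈ V → ∃ t ∈ V, t ≠ 1 ∧ t * t = 1 := by
  classical
  by_contra hcon
  push Not at hcon
  obtain ⟨V0, hV0, h1V0, hV0'⟩ := hcon
  let R : Setoid G := ⟨invRel H, invRel_equiv hH⟩
  let σ : Equiv.Perm (Quotient R) := Quotient.congr (ra := R) (rb := R) (Equiv.inv G)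
    (fun x y => ⟨fun h => invRel_inv x y h, fun h => by
      have := invRel_inv (H := H) _ _ h
      change invRel H x y
      simpa using this⟩)
  have hσ : ∀ x, σ (Quotient.mk R x) = Quotient.mk R x⁻¹ := fun x => rfl
  obtain ⟨c, d, hcd⟩ := exists_colouring σ
  obtain ⟨O, hO, ⟨z, hzO⟩, hc, hd⟩ := hHI.two (fun x => c (Quotient.mk R x))
    (fun x => d (Quotient.mk R x))
  obtain ⟨i, hzi⟩ := hH.cov z
  obtain ⟨Vi, hVi, h1Vi, hVi'⟩ := hH.disc i
  obtain ⟨Vz, hVz, h1Vz, hVz'⟩ := hcent z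
  let V : Set G := (((fun t => z * t) ⁻¹' O ∩ (fun t => z * t⁻¹) ⁻¹' O) ∩
    (fun t => t * t) ⁻¹' Vi) ∩ (Vz ∩ V0)
  have hV : IsOpen V := by
    refine ((IsOpen.inter ?_ ?_).inter ?_).inter (hVz.inter hV0)
    · exact hO.preimage (by fun_prop)
    · exact hO.preimage (by fun_prop)
    · exact hVi.preimage (by fun_prop)
  have h1V : (1 : G) ∈ V := by
    refine ⟨⟨⟨?_, ?_⟩, ?_⟩, h1Vz, h1V0⟩
    · simpa using hzO
    · simpa using hzO
    · simpa using h1Vi
  obtain ⟨t, ⟨⟨⟨ht1, ht2⟩, ht3⟩, htz, ht0⟩, htne⟩ := hnd V hV h1V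
  have hsq : t * t ∉ H i := by
    intro hmem
    exact hV0' t ht0 htne (hVi' _ ht3 hmem)
  have hsq' : t⁻¹ * t⁻¹ ∉ H i := by
    intro hmem
    apply hsq
    simpa using (H i).inv_mem hmem
  have hzt : z * t = t * z := hVz' t htz
  have hzt' : z * t⁻¹ = t⁻¹ * z := by
    have := congrArg (fun u => t⁻¹ * u * t⁻¹) hzt
    simp only [mul_assoc, mul_inv_cancel, mul_one, inv_mul_cancel_left] at this
    exact this.symm
  have e1 : Quotient.mk R (z * t) = Quotient.mk R t := by
    symm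
    refine Quotient.sound (Or.inr ⟨i, ?_, ?_, hsq⟩)
    · simpa using hzi
    · rw [hzt]; simpa using hzi
  have e2 : Quotient.mk R (z * t⁻¹) = Quotient.mk R t⁻¹ := by
    symm
    refine Quotient.sound (Or.inr ⟨i, ?_, ?_, hsq'⟩)
    · simpa using hzi
    · rw [hzt']; simpa using hzi
  have hfix : σ (Quotient.mk R t) = Quotient.mk R t := by
    by_contra hne
    rcases hcd _ hne with h | h
    · apply h
      have := hc _ ht2 _ ht1
      simp only at this
      rw [e1, e2] at this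
      rw [hσ]
      exact this
    · apply h
      have := hd _ ht2 _ ht1
      simp only at this
      rw [e1, e2] at this
      rw [hσ]
      exact this
  rw [hσ] at hfix
  have hrel : invRel H t⁻¹ t := Quotient.exact hfix
  rcases hrel with h | ⟨j, h, -, h'⟩
  · apply hV0' t ht0 htne
    calc t * t = t⁻¹ * t := by rw [h]
      _ = 1 := by simp
  · apply h'
    rw [inv_inv] at h
    simpa using (H j).inv_mem h

end

end Pool.Agent.H2.Irres
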