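import Pool.Agent.H2.Irres.Assembly

set_option autoImplicit false
set_option linter.unusedSectionVars false

open Topology Set Cardinal

namespace Pool.Agent.H2.Irres

/-- Every element of an infinite Boolean subgroup, transported along a subgroup inclusion. -/
theorem boolean_of_subgroup {G : Type*} [Group G] (K : Subgroup G)
    (h : ∃ H : Subgroup K, (H : Set K).Infinite ∧ ∀ x ∈ H, x * x = 1) :
    ∃ H : Subgroup G, (H : Set G).Infinite ∧ ∀ x ∈ H, x * x = 1 := by
  obtain ⟨H, hinf, hH⟩ := h
  refine ⟨H.map K.subtype, ?_, ?_⟩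
  · rw [Subgroup.coe_map]
    exact hinf.image (K.subtype_injective.injOn)
  · rintro x ⟨y, hy, rfl⟩
    have := congrArg K.subtype (hH y hy)
    simpa using this

/-- the cardinality of a generated subgroup -/
theorem mk_closure_le {G : Type*} [Group G] (s : Set G) :
    #(Subgroup.closure s) ≤ max #s ℵ₀ := by
  rcases s.eq_empty_or_nonempty with rfl | hne
  · rw [Subgroup.closure_empty]
    refine le_trans ?_ (le_max_right _ _)
    rw [Cardinal.mk_le_aleph0_iff]
    infer_instance
  · haveI : Nonempty s := hne.to_subtype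
    rw [← Cardinal.mk_freeGroup, FreeGroup.closure_eq_range]
    exact Cardinal.mk_le_of_surjective (MonoidHom.rangeRestrict_surjective _)

variable {G : Type*} [Group G] [TopologicalSpace G] [IsTopologicalGroup G]

/-- A group of uncountable cardinality all of whose smaller subgroups are discrete is the union
of a chain of discrete subgroups. -/
theorem exists_chain (hunc : ℵ₀ < #G)
    (hsmall : ∀ H : Subgroup G, #H < #G →
      ∃ V : Set G, IsOpen V ∧ (1 : G) ∈ V ∧ ∀ x ∈ V, x ∈ H → x = 1) :
    ∃ H : (#G).ord.ToType → Subgroup G, DChain H := by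
  have hcard : #((#G).ord.ToType) = #G := Cardinal.mk_ord_toType _
  obtain ⟨φ⟩ := Cardinal.eq.1 hcard
  haveI : NoMaxOrder (#G).ord.ToType := Cardinal.noMaxOrder hunc.le
  refine ⟨fun i => Subgroup.closure (φ '' Iio i), ?_, ?_, ?_⟩
  · intro i j hij
    exact Subgroup.closure_mono (image_mono (Iio_subset_Iio hij))
  · intro x
    obtain ⟨j, hj⟩ := exists_gt (φ.symm x)
    exact ⟨j, Subgroup.subset_closure ⟨φ.symm x, hj, by simp⟩⟩
  · intro i
    apply hsmall
    refine lt_of_le_of_lt (mk_closure_le _) (max_lt ?_ hunc)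
    exact lt_of_le_of_lt Cardinal.mk_image_le (Cardinal.mk_Iio_toType_ord_lt i)

/-- The main theorem for groups with small subgroups discrete. -/
theorem main_minimal (hHI : HI G)
    (hnd : ∀ V : Set G, IsOpen V → (1 : G) ∈ V → ∃ t ∈ V, t ≠ 1)
    (hsmall : ∀ H : Subgroup G, #H < #G →
      ∃ V : Set G, IsOpen V ∧ (1 : G) ∈ V ∧ ∀ x ∈ V, x ∈ H → x = 1) :
    ∃ H : Subgroup G, (H : Set G).Infinite ∧ ∀ x ∈ H, x * x = 1 := by
  haveI := hHI.t0
  haveI : T2Space G := inferInstance
  rcases lt_or_ge ℵ₀ #G with hunc | hcount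
  · obtain ⟨H, hH⟩ := exists_chain hunc hsmall
    have hcent := centralizer_of_chain hHI hH
    exact exists_infinite_boolean (fun a _ => hcent a) (involutions_of_chain hHI hH hcent hnd)
  · haveI : Countable G := Cardinal.mk_le_aleph0_iff.1 hcount
    exact exists_infinite_boolean (fun a ha => centralizer_of_countable hHI a ha)
      (involutions_of_countable hHI hnd)

/-- Every nondiscrete hereditarily irresolvable topological group contains an infinite Boolean
subgroup. -/
theorem main (hHI : HI G)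
    (hnd : ∀ V : Set G, IsOpen V → (1 : G) ∈ V → ∃ t ∈ V, t ≠ 1) :
    ∃ H : Subgroup G, (H : Set G).Infinite ∧ ∀ x ∈ H, x * x = 1 := by
  let P : Subgroup G → Prop := fun K =>
    ∀ V : Set G, IsOpen V → (1 : G) ∈ V → ∃ t ∈ V, t ∈ K ∧ t ≠ 1
  let S : Set Cardinal := {κ | ∃ K : Subgroup G, P K ∧ #K = κ}
  have hS : S.Nonempty := by
    refine ⟨_, ⊤, ?_, rfl⟩
    intro V hV h1
    obtain ⟨t, ht, hne⟩ := hnd V hV h1
    exact ⟨t, ht, Subgroup.mem_top t, hne⟩
  obtain ⟨K, hK, hKcard⟩ := csInf_mem hS
  apply boolean_of_subgroup K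
  have hHIK : HI K := hHI.of_isEmbedding (f := ((↑) : K → G)) IsEmbedding.subtypeVal
  refine main_minimal hHIK ?_ ?_
  · intro V hV h1
    obtain ⟨U, hU, rfl⟩ := isOpen_induced_iff.1 hV
    obtain ⟨t, htU, htK, hne⟩ := hK U hU h1
    refine ⟨⟨t, htK⟩, htU, ?_⟩
    intro h
    exact hne (congrArg Subtype.val h)
  · intro H hH
    by_contra hcon
    push Not at hcon
    have hmem : #(H.map K.subtype) ∈ S := by
      refine ⟨H.map K.subtype, ?_, rfl⟩
      intro V hV h1
      obtain ⟨x, hxV, hxH, hne⟩ := hcon (((↑) : K → G) ⁻¹' V)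
        (hV.preimage continuous_subtype_val) h1
      refine ⟨x.1, hxV, ⟨x, hxH, rfl⟩, ?_⟩
      intro h
      exact hne (Subtype.ext h)
    have hle : sInf S ≤ #(H.map K.subtype) := csInf_le' hmem
    rw [← hKcard] at hle
    have hcardH : #(H.map K.subtype) = #H :=
      (Cardinal.mk_congr (H.equivMapOfInjective K.subtype K.subtype_injective).toEquiv).symm
    rw [hcardH] at hle
    exact absurd hH (not_lt.2 hle)

end Pool.Agent.H2.Irres
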