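import Mathlib

set_option autoImplicit false

open Topology Set

namespace Pool.Agent.H2.Irres

/-- A family of local reflections on a space. -/
structure Refl (X : Type*) [TopologicalSpace X] (s : X → X → X) : Prop where
  cont : ∀ x, Continuous (s x)
  invol : ∀ x y, s x (s x y) = y
  self : ∀ x, s x x = x
  quandle : ∀ x y z, s (s x y) (s x z) = s x (s y z)
  loc : ∀ x, ∃ U : Set X, IsOpen U ∧ x ∈ U ∧ ∀ u ∈ U, s x u = u → s u = s x

section Domain

variable {X : Type*} [TopologicalSpace X] [T2Space X] [Countable X]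

/-- An open fundamental domain for a continuous involution on an invariant clopen set. -/
theorem exists_open_domain
    (hz : ∀ x : X, ∀ U : Set X, IsOpen U → x ∈ U → ∃ W, IsClopen W ∧ x ∈ W ∧ W ⊆ U)
    (f : X → X) (hf : Continuous f) (hff : ∀ x, f (f x) = x) (W : Set X) (hW : IsClopen W)
    (_hWf : ∀ u ∈ W, f u ∈ W) :
    ∃ C : Set X, IsOpen C ∧ C ⊆ W ∧ (∀ u ∈ C, f u ∉ C) ∧
      ∀ u ∈ W, f u ≠ u → u ∈ C ∨ f u ∈ C := by
  classical
  -- small clopen sets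
  have hB : ∀ x : X, ∃ B : Set X, IsClopen B ∧ B ⊆ W ∧ (∀ u ∈ B, f u ∉ B) ∧
      (x ∈ W → f x ≠ x → x ∈ B) := by
    intro x
    by_cases hx : x ∈ W ∧ f x ≠ x
    · obtain ⟨P, Q, hP, hQ, hxP, hxQ, hPQ⟩ := t2_separation hx.2
      obtain ⟨B, hB, hxB, hBs⟩ := hz x (Q ∩ f ⁻¹' P ∩ W)
        ((hQ.inter (hP.preimage hf)).inter hW.isOpen) ⟨⟨hxQ, hxP⟩, hx.1⟩
      refine ⟨B, hB, fun u hu => (hBs hu).2, ?_, fun _ _ => hxB⟩
      intro u hu hfu
      exact (disjoint_left.1 hPQ) (hBs hu).1.2 (hBs hfu).1.1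
    · refine ⟨∅, isClopen_empty, empty_subset _, fun u hu => hu.elim, ?_⟩
      intro h1 h2
      exact absurd ⟨h1, h2⟩ hx
  choose B hBc hBW hBf hBx using hB
  rcases isEmpty_or_nonempty X with hemp | hne
  · exact ⟨∅, isOpen_empty, empty_subset _, fun u hu => hu.elim,
      fun u => (hemp.false u).elim⟩
  obtain ⟨e, he⟩ := exists_surjective_nat X
  let D : ℕ → Set X := fun n => B (e n) ∪ f ⁻¹' (B (e n))
  have hDc : ∀ n, IsClopen (D n) := fun n => (hBc _).union ((hBc _).preimage hf)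
  have hDf : ∀ n u, u ∈ D n → f u ∈ D n := by
    rintro n u (hu | hu)
    · right
      change f (f u) ∈ B (e n)
      rwa [hff]
    · left
      exact hu
  let A : ℕ → Set X := fun n => B (e n) \ ⋃ j ∈ Finset.range n, D j
  have hAo : ∀ n, IsOpen (A n) := by
    intro n
    refine (hBc _).isOpen.sdiff ?_
    exact isClosed_biUnion_finset fun j _ => (hDc j).isClosed
  have hnot : ∀ n u, u ∉ (⋃ j ∈ Finset.range n, D j) → ∀ j < n, u ∉ D j := by
    intro n u hu j hj hD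
    exact hu (mem_biUnion (x := j) (by simpa using hj) hD)
  refine ⟨⋃ n, A n, isOpen_iUnion hAo, ?_, ?_, ?_⟩
  · exact iUnion_subset fun n => sdiff_subset.trans (hBW _)
  · intro u hu hfu
    rw [mem_iUnion] at hu hfu
    obtain ⟨i, hi⟩ := hu
    obtain ⟨j, hj⟩ := hfu
    rcases lt_trichotomy i j with hij | hij | hij
    · exact hnot j _ hj.2 i hij (hDf i u (Or.inl hi.1))
    · subst hij
      exact hBf _ u hi.1 hj.1
    · refine hnot i _ hi.2 j hij ?_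
      have := hDf j _ (Or.inl hj.1)
      rwa [hff] at this
  · intro u hu hfu
    obtain ⟨m, hm⟩ := he u
    have hex : ∃ n, u ∈ D n := ⟨m, Or.inl (by rw [hm]; exact hBx u hu hfu)⟩
    let n := Nat.find hex
    have hn : u ∈ D n := Nat.find_spec hex
    have hmin : ∀ j < n, u ∉ D j := fun j hj => Nat.find_min hex hj
    have hmin' : ∀ j < n, f u ∉ D j := by
      intro j hj hh
      have := hDf j _ hh
      rw [hff] at this
      exact hmin j hj this
    rcases hn with h1 | h1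
    · left
      rw [mem_iUnion]
      refine ⟨n, h1, ?_⟩
      simp only [mem_iUnion, Finset.mem_range, not_exists]
      exact hmin
    · right
      rw [mem_iUnion]
      refine ⟨n, h1, ?_⟩
      simp only [mem_iUnion, Finset.mem_range, not_exists]
      exact hmin'

/-- The local step: an invariant clopen cell with an open fundamental domain. -/
theorem exists_cell
    (hz : ∀ x : X, ∀ U : Set X, IsOpen U → x ∈ U → ∃ W, IsClopen W ∧ x ∈ W ∧ W ⊆ U)
    {s : X → X → X} (hs : Refl X s) (x : X) (O : Set X) (hO : IsOpen O) (hx : x ∈ O) :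
    ∃ W C : Set X, IsClopen W ∧ x ∈ W ∧ W ⊆ O ∧ (∀ u ∈ W, s x u ∈ W) ∧
      (∀ u ∈ W, s x u = u → s u = s x) ∧
      IsOpen C ∧ C ⊆ W ∧ (∀ u ∈ C, s x u ∉ C) ∧
      ∀ u ∈ W, s x u ≠ u → u ∈ C ∨ s x u ∈ C := by
  obtain ⟨U, hU, hxU, hUs⟩ := hs.loc x
  obtain ⟨W₀, hW₀, hxW₀, hW₀s⟩ := hz x (O ∩ U) (hO.inter hU) ⟨hx, hxU⟩
  let W : Set X := W₀ ∩ s x ⁻¹' W₀
  have hW : IsClopen W := hW₀.inter (hW₀.preimage (hs.cont x))
  have hxW : x ∈ W := ⟨hxW₀, by change s x x ∈ W₀; rwa [hs.self]⟩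
  have hWs : ∀ u ∈ W, s x u ∈ W := by
    intro u hu
    refine ⟨hu.2, ?_⟩
    change s x (s x u) ∈ W₀
    rw [hs.invol]
    exact hu.1
  obtain ⟨C, hC, hCW, hCf, hCc⟩ := exists_open_domain hz (s x) (hs.cont x) (hs.invol x) W hW hWs
  exact ⟨W, C, hW, hxW, fun u hu => (hW₀s hu.1).1, hWs, fun u hu => hUs u (hW₀s hu.1).2, hC,
    hCW, hCf, hCc⟩

/-- The data built by the recursion. -/
structure Seq (X : Type*) [TopologicalSpace X] (s : X → X → X) (e : ℕ → X) where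
  O : ℕ → Set X
  W : ℕ → Set X
  C : ℕ → Set X
  rep : ℕ → X → X
  par : ℕ → X → Bool
  O0 : O 0 = univ
  rep0 : ∀ y, rep 0 y = y
  par0 : ∀ y, par 0 y = false
  openO : ∀ n, IsOpen (O n)
  cell : ∀ n, rep n (e n) ∈ O n →
    IsClopen (W n) ∧ rep n (e n) ∈ W n ∧ W n ⊆ O n ∧ (∀ u ∈ W n, s (rep n (e n)) u ∈ W n) ∧
      (∀ u ∈ W n, s (rep n (e n)) u = u → s u = s (rep n (e n))) ∧
      IsOpen (C n) ∧ C n ⊆ W n ∧ (∀ u ∈ C n, s (rep n (e n)) u ∉ C n) ∧
      ∀ u ∈ W n, s (rep n (e n)) u ≠ u → u ∈ C n ∨ s (rep n (e n)) u ∈ C n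
  nocell : ∀ n, rep n (e n) ∉ O n → W n = ∅ ∧ C n = ∅
  Osucc : ∀ n, O (n + 1) = (O n \ W n) ∪ C n
  repS1 : ∀ n y, s (rep n (e n)) (rep n y) ∈ C n → rep (n + 1) y = s (rep n (e n)) (rep n y)
  repS2 : ∀ n y, s (rep n (e n)) (rep n y) ∉ C n → rep (n + 1) y = rep n y
  parS1 : ∀ n y, s (rep n (e n)) (rep n y) ∈ C n → par (n + 1) y = !(par n y)
  parS2 : ∀ n y, s (rep n (e n)) (rep n y) ∉ C n → par (n + 1) y = par n y

theorem exists_seq
    (hz : ∀ x : X, ∀ U : Set X, IsOpen U → x ∈ U → ∃ W, IsClopen W ∧ x ∈ W ∧ W ⊆ U)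
    {s : X → X → X} (hs : Refl X s) (e : ℕ → X) : Nonempty (Seq X s e) := by
  classical
  have hcell : ∀ (x : X) (O : {O : Set X // IsOpen O}), ∃ WC : Set X × Set X,
      (x ∈ O.1 → IsClopen WC.1 ∧ x ∈ WC.1 ∧ WC.1 ⊆ O.1 ∧ (∀ u ∈ WC.1, s x u ∈ WC.1) ∧
      (∀ u ∈ WC.1, s x u = u → s u = s x) ∧
      IsOpen WC.2 ∧ WC.2 ⊆ WC.1 ∧ (∀ u ∈ WC.2, s x u ∉ WC.2) ∧
      ∀ u ∈ WC.1, s x u ≠ u → u ∈ WC.2 ∨ s x u ∈ WC.2) ∧
      (x ∉ O.1 → WC.1 = ∅ ∧ WC.2 = ∅) ∧ IsClosed WC.1 ∧ IsOpen WC.2 := by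
    intro x O
    by_cases hx : x ∈ O.1
    · obtain ⟨W, C, h1, h2, h3, h4, h5, h6, h7, h8, h9⟩ := exists_cell hz hs x O.1 O.2 hx
      exact ⟨(W, C), fun _ => ⟨h1, h2, h3, h4, h5, h6, h7, h8, h9⟩, fun h => absurd hx h,
        h1.isClosed, h6⟩
    · exact ⟨(∅, ∅), fun h => absurd h hx, fun _ => ⟨rfl, rfl⟩, isClosed_empty, isOpen_empty⟩
  choose WC hWC1 hWC2 hWC3 hWC4 using hcell
  let St := {O : Set X // IsOpen O} × (X → X) × (X → Bool)
  let step : ℕ → St → St := fun n σ =>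
    let x := σ.2.1 (e n)
    (⟨(σ.1.1 \ (WC x σ.1).1) ∪ (WC x σ.1).2,
        ((σ.1.2).sdiff (hWC3 x σ.1)).union (hWC4 x σ.1)⟩,
      (fun y => if s x (σ.2.1 y) ∈ (WC x σ.1).2 then s x (σ.2.1 y) else σ.2.1 y),
      (fun y => if s x (σ.2.1 y) ∈ (WC x σ.1).2 then !(σ.2.2 y) else σ.2.2 y))
  let st : ℕ → St := fun n => Nat.rec (motive := fun _ => St)
    (⟨univ, isOpen_univ⟩, (fun y => y), fun _ => false) (fun n σ => step n σ) n
  have hst : ∀ n, st (n + 1) = step n (st n) := fun n => rfl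
  refine ⟨{
    O := fun n => (st n).1.1
    W := fun n => (WC ((st n).2.1 (e n)) (st n).1).1
    C := fun n => (WC ((st n).2.1 (e n)) (st n).1).2
    rep := fun n => (st n).2.1
    par := fun n => (st n).2.2
    O0 := rfl
    rep0 := fun y => rfl
    par0 := fun y => rfl
    openO := fun n => (st n).1.2
    cell := fun n hn => hWC1 _ _ hn
    nocell := fun n hn => hWC2 _ _ hn
    Osucc := fun n => by rw [hst]
    repS1 := fun n y hy => by
      rw [hst]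
      exact if_pos hy
    repS2 := fun n y hy => by
      rw [hst]
      exact if_neg hy
    parS1 := fun n y hy => by
      rw [hst]
      exact if_pos hy
    parS2 := fun n y hy => by
      rw [hst]
      exact if_neg hy }⟩

end Domain

end Pool.Agent.H2.Irres
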